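import Pool.Agent.THS.StmtsN

namespace Pool.Agent.THS.H16

open Pool.Agent.THS
open scoped BigOperators

theorem le_nv {K ι : Type} [Field K] [Finite ι] (v : AbsoluteValue K ℝ) (x : ι → K) (i : ι) :
    v (x i) ≤ nv v x :=
  le_ciSup (f := fun i => v (x i)) (Set.finite_range _).bddAbove i

theorem nv_pos {K ι : Type} [Field K] [Finite ι] (v : AbsoluteValue K ℝ) {x : ι → K}
    (hx : x ≠ 0) : 0 < nv v x := by
  obtain ⟨j, hj⟩ := Function.ne_iff.mp hx
  exact lt_of_lt_of_le (v.pos hj) (le_nv v x j)

theorem exists_nv {K ι : Type} [Field K] [Finite ι] (v : AbsoluteValue K ℝ) {x : ι → K}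
    (hx : x ≠ 0) : ∃ i, v (x i) = nv v x := by
  obtain ⟨j, hj⟩ := Function.ne_iff.mp hx
  haveI : Nonempty ι := ⟨j⟩
  exact exists_eq_ciSup_of_finite (f := fun i => v (x i))

/-- ultrametric inequality for a difference -/
theorem na_sub {K : Type} [Field K] {v : AbsoluteValue K ℝ} (hv : IsNonarchimedean v) (a b : K) :
    v (a - b) ≤ max (v a) (v b) := by
  have h := hv a (-b)
  rwa [← sub_eq_add_neg, v.map_neg] at h

/-- **Row PCE**. -/
theorem pce : PceStatement := by
  intro K ι _ _ v x y hv hx hy
  have hxp := nv_pos v hx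
  have hyp := nv_pos v hy
  refine ⟨⟨fun h => ?_, ?_⟩, ?_⟩
  · obtain ⟨p, hp⟩ := exists_nv v hy
    have hyp0 : y p ≠ 0 := by
      intro h0
      rw [h0, v.map_zero] at hp
      exact absurd hp hyp.ne
    have key : ∀ i, v (x i - x p / y p * y i) < nv v x := by
      intro i
      have h1 := h i p
      have h2 : x i * y p - x p * y i = (x i - x p / y p * y i) * y p := by
        field_simp
      rw [h2, v.map_mul, hp] at h1
      exact lt_of_mul_lt_mul_right h1 hyp.le
    refine ⟨x p / y p, ?_, key⟩
    intro h0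
    obtain ⟨i, hi⟩ := exists_nv v hx
    have h1 := key i
    rw [h0, zero_mul, sub_zero, hi] at h1
    exact lt_irrefl _ h1
  · rintro ⟨l, -, hl⟩ i j
    have h2 : x i * y j - x j * y i = (x i - l * y i) * y j - (x j - l * y j) * y i := by ring
    rw [h2]
    refine lt_of_le_of_lt (na_sub hv _ _) (max_lt ?_ ?_)
    · rw [v.map_mul]
      calc v (x i - l * y i) * v (y j) ≤ v (x i - l * y i) * nv v y :=
            mul_le_mul_of_nonneg_left (le_nv v y j) (v.nonneg _)
        _ < nv v x * nv v y := mul_lt_mul_of_pos_right (hl i) hyp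
    · rw [v.map_mul]
      calc v (x j - l * y j) * v (y i) ≤ v (x j - l * y j) * nv v y :=
            mul_le_mul_of_nonneg_left (le_nv v y i) (v.nonneg _)
        _ < nv v x * nv v y := mul_lt_mul_of_pos_right (hl j) hyp
  · intro l hl
    apply le_antisymm
    · obtain ⟨p, hp⟩ := exists_nv v hy
      have h1 : l * y p = x p - (x p - l * y p) := by ring
      rw [← hp, ← v.map_mul, h1]
      exact le_trans (na_sub hv _ _) (max_le (le_nv v x p) (hl p).le)
    · obtain ⟨i, hi⟩ := exists_nv v hx
      have h1 := hv (x i - l * y i) (l * y i)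
      rw [sub_add_cancel, hi, v.map_mul] at h1
      rcases le_max_iff.mp h1 with h2 | h2
      · exact absurd (hl i) (not_lt.mpr h2)
      · exact le_trans h2 (mul_le_mul_of_nonneg_left (le_nv v y i) (v.nonneg _))

end Pool.Agent.THS.H16
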