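import Pool.Agent.THS.StmtsB

namespace Pool.Agent.THS.H16

open Pool.Agent.THS
open scoped BigOperators
open Polynomial

/-- a root of unity of small degree over a number field has small order -/
theorem order_le (hTOT : TotStatement) {K L : Type} [Field K] [NumberField K] [Field L]
    [Algebra K L] [CharZero L] (m : K[X]) (hm : m ≠ 0) (N D : ℕ) (hN : 0 < N) (ζ : L)
    (hζ : ζ ^ N = 1) (hroot : aeval ζ m = 0) (hD : Module.finrank ℚ K * m.natDegree ≤ D) :
    ζ ^ (2 * D ^ 2).factorial = 1 := by
  have hfin : IsOfFinOrder ζ := isOfFinOrder_iff_pow_eq_one.mpr ⟨N, hN, hζ⟩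
  have hn : 0 < orderOf ζ := hfin.orderOf_pos
  have hprim : IsPrimitiveRoot ζ (orderOf ζ) := IsPrimitiveRoot.orderOf ζ
  have hint : IsIntegral K ζ := (isAlgebraic_iff_isIntegral).mp ⟨m, hm, hroot⟩
  have h1 : (minpoly K ζ).natDegree ≤ m.natDegree :=
    natDegree_le_of_dvd (minpoly.dvd K ζ hroot) hm
  haveI : FiniteDimensional K (IntermediateField.adjoin K {ζ}) :=
    IntermediateField.adjoin.finiteDimensional hint
  have h2 : Module.finrank K (IntermediateField.adjoin K {ζ}) = (minpoly K ζ).natDegree :=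
    IntermediateField.adjoin.finrank hint
  haveI : FiniteDimensional ℚ (IntermediateField.adjoin K {ζ}) :=
    FiniteDimensional.trans ℚ K _
  have h3 : Module.finrank ℚ K * Module.finrank K (IntermediateField.adjoin K {ζ})
      = Module.finrank ℚ (IntermediateField.adjoin K {ζ}) :=
    Module.finrank_mul_finrank ℚ K _
  have hprim' : IsPrimitiveRoot (IntermediateField.AdjoinSimple.gen K ζ) (orderOf ζ) := by
    refine IsPrimitiveRoot.of_map_of_injective (f := algebraMap (IntermediateField.adjoin K {ζ}) L)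
      ?_ (algebraMap (IntermediateField.adjoin K {ζ}) L).injective
    rw [IntermediateField.AdjoinSimple.algebraMap_gen]
    exact hprim
  have h4 : (minpoly ℚ (IntermediateField.AdjoinSimple.gen K ζ)).natDegree
      ≤ Module.finrank ℚ (IntermediateField.adjoin K {ζ}) :=
    minpoly.natDegree_le _
  rw [← cyclotomic_eq_minpoly_rat hprim' hn, natDegree_cyclotomic] at h4
  have h5 : (orderOf ζ).totient ≤ D := by
    calc (orderOf ζ).totient ≤ Module.finrank ℚ (IntermediateField.adjoin K {ζ}) := h4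
      _ = Module.finrank ℚ K * (minpoly K ζ).natDegree := by rw [← h3, h2]
      _ ≤ Module.finrank ℚ K * m.natDegree := Nat.mul_le_mul_left _ h1
      _ ≤ D := hD
  have h6 : orderOf ζ ≤ 2 * D ^ 2 :=
    le_trans (hTOT _ hn) (Nat.mul_le_mul_left 2 (Nat.pow_le_pow_left h5 2))
  exact orderOf_dvd_iff_pow_eq_one.mp (Nat.dvd_factorial hn h6)

/-- **Row ROU**. -/
theorem rou (hTOT : TotStatement) : RouStatement := by
  intro K _ _ V _ _ _ d r N S hd hV hN hS
  have hint : IsIntegral K S := LinearMap.isIntegral S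
  have hm0 : minpoly K S ≠ 0 := minpoly.ne_zero hint
  have hN0 : ((N : ℕ) : K) ≠ 0 := Nat.cast_ne_zero.mpr hN.ne'
  have hdvd : minpoly K S ∣ X ^ N - 1 := by
    apply minpoly.dvd
    rw [map_sub, map_pow, aeval_X, map_one, hS, sub_self]
  have hsep : (minpoly K S).Separable :=
    Separable.of_dvd (X_pow_sub_one_separable_iff.mpr hN0) hdvd
  have hdeg : (minpoly K S).natDegree ≤ Module.finrank K V := by
    rw [← LinearMap.charpoly_natDegree S]
    exact natDegree_le_of_dvd (LinearMap.minpoly_dvd_charpoly S) (LinearMap.charpoly_monic S).ne_zero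
  have hD : Module.finrank ℚ K * (minpoly K S).natDegree ≤ d * r :=
    Nat.mul_le_mul hd (le_trans hdeg hV.le)
  have hM : (2 * (d * r) ^ 2).factorial ≠ 0 := Nat.factorial_ne_zero _
  have hdvd2 : minpoly K S ∣ X ^ (2 * (d * r) ^ 2).factorial - 1 := by
    rw [← map_dvd_map' (algebraMap K (AlgebraicClosure K))]
    have hm1 : (minpoly K S).map (algebraMap K (AlgebraicClosure K)) ≠ 0 :=
      (Polynomial.map_ne_zero_iff (algebraMap K (AlgebraicClosure K)).injective).mpr hm0
    have hM1 : (X ^ (2 * (d * r) ^ 2).factorial - 1 : K[X]) ≠ 0 := by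
      have := X_pow_sub_C_ne_zero (R := K) (Nat.pos_of_ne_zero hM) 1
      rwa [C_1] at this
    have hM2 : (X ^ (2 * (d * r) ^ 2).factorial - 1 : K[X]).map
        (algebraMap K (AlgebraicClosure K)) ≠ 0 :=
      (Polynomial.map_ne_zero_iff (algebraMap K (AlgebraicClosure K)).injective).mpr hM1
    rw [IsAlgClosed.dvd_iff_roots_le_roots hm1 hM2]
    have hnd : ((minpoly K S).map (algebraMap K (AlgebraicClosure K))).roots.Nodup :=
      nodup_roots hsep.map
    rw [Multiset.le_iff_subset hnd]
    intro ζ hζ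
    rw [mem_roots hm1, IsRoot.def, eval_map_algebraMap] at hζ
    rw [mem_roots hM2, IsRoot.def, eval_map_algebraMap]
    have hζN : ζ ^ N = 1 := by
      obtain ⟨q, hq⟩ := hdvd
      have h1 : aeval ζ (X ^ N - 1 : K[X]) = 0 := by
        rw [hq, map_mul, hζ, zero_mul]
      rw [map_sub, map_pow, aeval_X, map_one] at h1
      exact sub_eq_zero.mp h1
    have h2 := order_le hTOT (minpoly K S) hm0 N (d * r) hN ζ hζN hζ hD
    rw [map_sub, map_pow, aeval_X, map_one, h2, sub_self]
  obtain ⟨q, hq⟩ := hdvd2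
  have h3 : aeval S (X ^ (2 * (d * r) ^ 2).factorial - 1 : K[X]) = 0 := by
    rw [hq, map_mul, minpoly.aeval, zero_mul]
  rw [map_sub, map_pow, aeval_X, map_one] at h3
  exact sub_eq_zero.mp h3

end Pool.Agent.THS.H16
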