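import Pool.Agent.THS.StmtsT

namespace Pool.Agent.THS.H16

open Pool.Agent.THS
open scoped BigOperators

/-- the term of the series at a real point is the term at zero times a character -/
theorem tht_real {g : ℕ} (τ : Matrix (Fin g) (Fin g) ℂ) (x : Fin g → ℝ) (n : Fin g → ℤ) :
    tht τ 0 (fun i => (x i : ℂ)) n
      = tht τ 0 0 n * Complex.exp (2 * Real.pi * Complex.I * ∑ i, (n i : ℂ) * (x i : ℂ)) := by
  unfold tht
  rw [← Complex.exp_add]
  congr 1
  simp

/-- **Row TNV**. -/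
theorem tnv (hTBD : TbdStatement) (hGRD : GrdStatement) : TnvStatement := by
  intro g τ hτ
  obtain ⟨u, hu, hb⟩ := hTBD g τ hτ 0
  have hs : Summable (fun n : Fin g → ℤ => ‖tht τ 0 0 n‖) :=
    Summable.of_nonneg_of_le (fun n => norm_nonneg _)
      (fun n => hb 0 0 (fun i => by simp) (fun i => by simp) n) hu
  have h0 : tht τ 0 0 (0 : Fin g → ℤ) = 1 := by
    unfold tht
    simp
  obtain ⟨x, hx⟩ := hGRD g (fun n => tht τ 0 0 n) hs h0
  refine ⟨fun i => (x i : ℂ), ?_⟩
  have he : ths τ 0 (fun i => (x i : ℂ)) = ∑' n : Fin g → ℤ,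
      tht τ 0 0 n * Complex.exp (2 * Real.pi * Complex.I * ∑ i, (n i : ℂ) * (x i : ℂ)) := by
    unfold ths
    exact tsum_congr (fun n => tht_real τ x n)
  rw [he]
  exact hx

end Pool.Agent.THS.H16
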